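import Mathlib
import Pool.Agent.V11161.OTCode

/-!
# Counting planar configurations near convex position

`log c_k(n) = Θ(n)` for every `k ≥ 2`.
-/

open Finset

namespace Pool.Agent.Results.MP_6a769b_co.ThetaLinear

/-- The determinant of `(q - p, r - p)`. -/
def det3 (p q r : ℝ × ℝ) : ℝ := (q.1 - p.1) * (r.2 - p.2) - (q.2 - p.2) * (r.1 - p.1)

/-- The orientation (sign of the determinant) of an ordered triple of points. -/
noncomputable def orient (p q r : ℝ × ℝ) : SignType := SignType.sign (det3 p q r)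

/-- Two finite planar sets have the same order type. -/
def SameOrderType (S S' : Finset (ℝ × ℝ)) : Prop :=
  ∃ φ : S ≃ S', ∀ p q r : S,
    orient (p : ℝ × ℝ) (q : ℝ × ℝ) (r : ℝ × ℝ) =
      orient (φ p : ℝ × ℝ) (φ q : ℝ × ℝ) (φ r : ℝ × ℝ)

/-- Every point of `S` is a vertex of the convex hull of `S`. -/
def ConvexPosition (S : Finset (ℝ × ℝ)) : Prop :=
  ∀ p ∈ S, p ∉ convexHull ℝ ((S : Set (ℝ × ℝ)) \ {p})

/-- The least number of points whose removal leaves a set in convex position. -/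
noncomputable def DTC (S : Finset (ℝ × ℝ)) : ℕ :=
  sInf {r : ℕ | ∃ R ⊆ S, R.card = r ∧ ConvexPosition (S \ R)}

theorem SameOrderType.refl (S : Finset (ℝ × ℝ)) : SameOrderType S S :=
  ⟨Equiv.refl _, fun _ _ _ => rfl⟩

theorem SameOrderType.symm {S S' : Finset (ℝ × ℝ)} (h : SameOrderType S S') :
    SameOrderType S' S := by
  obtain ⟨φ, hφ⟩ := h
  refine ⟨φ.symm, fun p q r => ?_⟩
  have := hφ (φ.symm p) (φ.symm q) (φ.symm r)
  simpa using this.symm

theorem SameOrderType.trans {S S' S'' : Finset (ℝ × ℝ)} (h : SameOrderType S S')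
    (h' : SameOrderType S' S'') : SameOrderType S S'' := by
  obtain ⟨φ, hφ⟩ := h
  obtain ⟨ψ, hψ⟩ := h'
  exact ⟨φ.trans ψ, fun p q r => (hφ p q r).trans (hψ _ _ _)⟩

/-- Equality of order types on the `n`-point configurations. -/
def orderSetoid (n : ℕ) : Setoid {S : Finset (ℝ × ℝ) // S.card = n} where
  r S S' := SameOrderType S.1 S'.1
  iseqv := ⟨fun S => SameOrderType.refl S.1, fun h => h.symm, fun h h' => h.trans h'⟩

/-- `c k n`: the number of order types of `n`-point configurations `S` with `DTC S < k`. -/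
noncomputable def c (k n : ℕ) : ℕ :=
  Set.ncard ((Quotient.mk (orderSetoid n)) '' {S | DTC S.1 < k})

/-! ### Lower bound -/

/-- the sign attached to a bit -/
def sg (b : Bool) : ℝ := if b then -1 else 1

theorem sg_sq (b : Bool) : sg b * sg b = 1 := by cases b <;> simp [sg]

theorem sg_ne (b : Bool) : sg b ≠ 0 := by cases b <;> simp [sg]

/-- norm of `(1, i)` -/
noncomputable def nrm (i : ℕ) : ℝ := Real.sqrt (1 + (i : ℝ) ^ 2)

theorem nrm_pos (i : ℕ) : 0 < nrm i := Real.sqrt_pos.2 (by positivity)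

theorem nrm_sq (i : ℕ) : nrm i * nrm i = 1 + (i : ℝ) ^ 2 :=
  Real.mul_self_sqrt (by positivity)

/-- points on the unit circle -/
noncomputable def vpt (b : Bool) (i : ℕ) : ℝ × ℝ := (sg b / nrm i, sg b * i / nrm i)

theorem vpt_norm (b : Bool) (i : ℕ) : (vpt b i).1 * (vpt b i).1 + (vpt b i).2 * (vpt b i).2 = 1 := by
  have h := nrm_pos i
  have h2 := nrm_sq i
  have h3 := sg_sq b
  simp only [vpt]
  field_simp
  nlinarith

theorem det3_vpt (b b' : Bool) (i j : ℕ) :
    det3 (0, 0) (vpt b i) (vpt b' j) = (sg b * sg b') * (((j : ℝ) - i) / (nrm i * nrm j)) := by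
  have h := (nrm_pos i).ne'
  have h' := (nrm_pos j).ne'
  simp only [det3, vpt, sub_zero]
  field_simp

theorem orient_vpt (b b' : Bool) (i j : ℕ) :
    orient (0, 0) (vpt b i) (vpt b' j) =
      SignType.sign (sg b * sg b') * SignType.sign ((j : ℝ) - i) := by
  rw [orient, det3_vpt, sign_mul, div_eq_mul_inv, sign_mul ((j : ℝ) - i)]
  have : SignType.sign ((nrm i * nrm j)⁻¹) = 1 :=
    sign_pos (inv_pos.2 (mul_pos (nrm_pos i) (nrm_pos j)))
  rw [this, mul_one]

theorem vpt_ne_zero (b : Bool) (i : ℕ) : vpt b i ≠ (0, 0) := by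
  intro h
  have := vpt_norm b i
  rw [h] at this
  simp at this

theorem sign_sg_mul (b b' : Bool) : SignType.sign (sg b * sg b') = if b = b' then 1 else -1 := by
  cases b <;> cases b' <;> simp [sg]

theorem vpt_inj {b b' : Bool} {i j : ℕ} (h : vpt b i = vpt b' j) : i = j := by
  by_contra hne
  have h1 : orient (0, 0) (vpt b i) (vpt b' j) = 0 := by
    rw [h]
    simp [orient, det3, mul_comm]
  rw [orient_vpt] at h1
  have hne' : (j : ℝ) - i ≠ 0 := by
    intro h0
    apply hne
    have : (j : ℝ) = i := by linarith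
    exact_mod_cast this.symm
  rcases mul_eq_zero.1 h1 with h2 | h2
  · rw [sign_eq_zero_iff] at h2
    exact (mul_ne_zero (sg_ne b) (sg_ne b')) h2
  · rw [sign_eq_zero_iff] at h2
    exact hne' h2

/-- points of the configuration without the origin -/
noncomputable def circ (m : ℕ) (b : Fin m → Bool) : Finset (ℝ × ℝ) :=
  univ.image (fun i : Fin m => vpt (b i) i)

theorem circ_card {m : ℕ} (b : Fin m → Bool) : (circ m b).card = m := by
  rw [circ, Finset.card_image_of_injective]
  · simp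
  · intro i j h
    exact Fin.ext (vpt_inj h)

/-- the configuration -/
noncomputable def wheel (m : ℕ) (b : Fin m → Bool) : Finset (ℝ × ℝ) :=
  insert ((0 : ℝ), (0 : ℝ)) (circ m b)

theorem zero_notMem_circ {m : ℕ} (b : Fin m → Bool) : ((0 : ℝ), (0 : ℝ)) ∉ circ m b := by
  intro h
  rw [circ, Finset.mem_image] at h
  obtain ⟨i, -, hi⟩ := h
  exact vpt_ne_zero _ _ hi

theorem mem_wheel {m : ℕ} {b : Fin m → Bool} {p : ℝ × ℝ} :
    p ∈ wheel m b ↔ p = (0, 0) ∨ ∃ i : Fin m, vpt (b i) i = p := by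
  rw [wheel, Finset.mem_insert, circ, Finset.mem_image]
  simp

theorem wheel_card {m : ℕ} (b : Fin m → Bool) : (wheel m b).card = m + 1 := by
  rw [wheel, Finset.card_insert_of_notMem (zero_notMem_circ b), circ_card]

theorem circ_convexPosition {m : ℕ} (b : Fin m → Bool) : ConvexPosition (circ m b) := by
  have hn : ∀ p ∈ circ m b, p.1 * p.1 + p.2 * p.2 = 1 := by
    intro p hp
    rw [circ, Finset.mem_image] at hp
    obtain ⟨i, -, rfl⟩ := hp
    exact vpt_norm _ _
  intro p hp hmem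
  have hsub : ((circ m b : Finset (ℝ × ℝ)) : Set (ℝ × ℝ)) \ {p} ⊆
      {z : ℝ × ℝ | p.1 * z.1 + p.2 * z.2 < 1} := by
    rintro z ⟨hz, hzp⟩
    have h1 := hn p hp
    have h2 := hn z (by exact_mod_cast hz)
    have hzp' : z ≠ p := hzp
    simp only [Set.mem_ofPred_eq]
    by_contra hlt
    push Not at hlt
    have h3 : (p.1 - z.1) * (p.1 - z.1) + (p.2 - z.2) * (p.2 - z.2) ≤ 0 := by nlinarith
    have g1 := mul_self_nonneg (p.1 - z.1)
    have g2 := mul_self_nonneg (p.2 - z.2)
    have h4 : p.1 - z.1 = 0 := by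
      apply mul_self_eq_zero.1
      linarith
    have h5 : p.2 - z.2 = 0 := by
      apply mul_self_eq_zero.1
      linarith
    apply hzp'
    ext <;> linarith
  have hconv : Convex ℝ {z : ℝ × ℝ | p.1 * z.1 + p.2 * z.2 < 1} := by
    intro x hx y hy u v hu hv huv
    simp only [Set.mem_ofPred_eq, Prod.fst_add, Prod.smul_fst, smul_eq_mul, Prod.snd_add,
      Prod.smul_snd] at *
    rcases hu.eq_or_lt with h0 | h0
    · have : v = 1 := by linarith
      subst this
      rw [← h0]; linarith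
    · nlinarith [mul_lt_mul_of_pos_left hx h0, mul_le_mul_of_nonneg_left hy.le hv]
  have := convexHull_min hsub hconv hmem
  simp only [Set.mem_ofPred_eq] at this
  have h1 := hn p hp
  linarith

theorem DTC_wheel_lt {m k : ℕ} (hk : 2 ≤ k) (b : Fin m → Bool) : DTC (wheel m b) < k := by
  have : DTC (wheel m b) ≤ 1 := by
    apply Nat.sInf_le
    refine ⟨{((0 : ℝ), (0 : ℝ))}, ?_, by simp, ?_⟩
    · simp [wheel]
    · have e : wheel m b \ {((0 : ℝ), (0 : ℝ))} = circ m b := by
        rw [wheel, Finset.insert_sdiff_of_mem _ (by simp)]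
        rw [Finset.sdiff_eq_self_of_disjoint]
        rw [Finset.disjoint_singleton_right]
        exact zero_notMem_circ b
      rw [e]
      exact circ_convexPosition b
  omega

/-- Rigidity: an equivalence fixing the origin and the first point forces equality of words. -/
theorem rigid {m : ℕ} {b b' : Fin (m + 1) → Bool} (h0 : b 0 = false) (h0' : b' 0 = false)
    (φ : (wheel (m + 1) b) ≃ (wheel (m + 1) b'))
    (hφ : ∀ p q r : wheel (m + 1) b, orient (p : ℝ × ℝ) (q : ℝ × ℝ) (r : ℝ × ℝ) =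
      orient (φ p : ℝ × ℝ) (φ q : ℝ × ℝ) (φ r : ℝ × ℝ))
    (z : wheel (m + 1) b) (hz : (z : ℝ × ℝ) = (0, 0)) (hz' : (φ z : ℝ × ℝ) = (0, 0))
    (w : wheel (m + 1) b) (hw : (w : ℝ × ℝ) = vpt (b 0) 0)
    (hw' : (φ w : ℝ × ℝ) = vpt (b' 0) 0) : b = b' := by
  have hmem : ∀ i : Fin (m + 1), vpt (b i) i ∈ wheel (m + 1) b := by
    intro i
    exact mem_wheel.2 (Or.inr ⟨i, rfl⟩)
  set P : Fin (m + 1) → wheel (m + 1) b := fun i => ⟨vpt (b i) i, hmem i⟩ with hP
  have hPinj : Function.Injective P := by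
    intro i j h
    exact Fin.ext (vpt_inj (Subtype.ext_iff.1 h))
  have hex : ∀ i, ∃ j : Fin (m + 1), (φ (P i) : ℝ × ℝ) = vpt (b' j) j := by
    intro i
    rcases mem_wheel.1 (φ (P i)).2 with h | ⟨j, hj⟩
    · exfalso
      have h1 : φ (P i) = φ z := Subtype.ext (h.trans hz'.symm)
      have h2 := congrArg (Subtype.val) (φ.injective h1)
      rw [hz] at h2
      exact vpt_ne_zero _ _ h2
    · exact ⟨j, hj.symm⟩
  choose π hπ using hex
  have hπ0 : π 0 = 0 := by
    have h1 : P 0 = w := Subtype.ext hw.symm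
    have h2 := hπ 0
    rw [h1, hw'] at h2
    exact (Fin.ext (vpt_inj h2)).symm
  have key : ∀ i j : Fin (m + 1),
      (SignType.sign (sg (b i) * sg (b j)) * SignType.sign (((j : ℕ) : ℝ) - (i : ℕ)) : SignType) =
      SignType.sign (sg (b' (π i)) * sg (b' (π j))) *
        SignType.sign (((π j : ℕ) : ℝ) - (π i : ℕ)) := by
    intro i j
    have h := hφ z (P i) (P j)
    rw [hz, hz', hπ i, hπ j, hP] at h
    simp only at h
    rwa [orient_vpt, orient_vpt] at h
  have hπinj : Function.Injective π := by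
    intro i j hij
    by_contra hne
    have hk := key i j
    rw [hij, sub_self, sign_zero, mul_zero] at hk
    rcases mul_eq_zero.1 hk with h | h
    · rw [sign_eq_zero_iff] at h
      exact (mul_ne_zero (sg_ne _) (sg_ne _)) h
    · rw [sign_eq_zero_iff] at h
      apply hne
      have : ((j : ℕ) : ℝ) = (i : ℕ) := by linarith
      exact (Fin.ext (by exact_mod_cast this)).symm
  have hbit : ∀ i, b i = b' (π i) := by
    intro i
    by_cases hi : i = 0
    · rw [hi, hπ0, h0, h0']
    · have hk := key 0 i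
      rw [hπ0, h0, h0'] at hk
      have hi' : 0 < (i : ℕ) := Nat.pos_of_ne_zero (fun h => hi (Fin.ext h))
      have hπi : 0 < (π i : ℕ) := by
        apply Nat.pos_of_ne_zero
        intro h
        apply hi
        apply hπinj
        rw [hπ0]
        exact Fin.ext h
      have e1 : SignType.sign (((i : ℕ) : ℝ) - ((0 : Fin (m + 1)) : ℕ)) = 1 := by
        apply sign_pos; simpa using hi'
      have e2 : SignType.sign (((π i : ℕ) : ℝ) - ((0 : Fin (m + 1)) : ℕ)) = 1 := by
        apply sign_pos; simpa using hπi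
      rw [e1, e2, mul_one, mul_one, sign_sg_mul, sign_sg_mul] at hk
      cases hb : b i <;> cases hb' : b' (π i) <;> simp_all
  have hmono : StrictMono π := by
    intro i j hij
    have hk := key i j
    rw [hbit i, hbit j] at hk
    have hne : SignType.sign (sg (b' (π i)) * sg (b' (π j))) ≠ 0 := by
      rw [Ne, sign_eq_zero_iff]
      exact mul_ne_zero (sg_ne _) (sg_ne _)
    have hk2 := mul_left_cancel₀ hne hk
    have e1 : SignType.sign (((j : ℕ) : ℝ) - (i : ℕ)) = 1 := by
      apply sign_pos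
      have : (i : ℕ) < (j : ℕ) := hij
      have : ((i : ℕ) : ℝ) < (j : ℕ) := by exact_mod_cast this
      linarith
    rw [e1] at hk2
    have h3 : 0 < ((π j : ℕ) : ℝ) - (π i : ℕ) := sign_eq_one_iff.1 hk2.symm
    have h4 : ((π i : ℕ) : ℝ) < (π j : ℕ) := by linarith
    exact (by exact_mod_cast h4 : (π i : ℕ) < (π j : ℕ))
  have hid : π = id := by
    have hsurj : Function.Surjective π := Finite.surjective_of_injective hπinj
    have hr : Set.range π = Set.range (id : Fin (m + 1) → Fin (m + 1)) := by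
      rw [hsurj.range_eq, Set.range_id]
    exact (StrictMono.range_inj hmono strictMono_id).1 hr
  funext i
  have := hbit i
  rwa [hid] at this

/-! ### Upper bound -/

open Pool.Agent.V11161.OTCount Pool.Agent.V11161.OTGeom Pool.Agent.V11161.OTCode

theorem exists_removal {S : Finset (ℝ × ℝ)} {k : ℕ} (h : DTC S < k) :
    ∃ R ⊆ S, R.card < k ∧ ConvexPosition (S \ R) := by
  have hne : {r : ℕ | ∃ R ⊆ S, R.card = r ∧ ConvexPosition (S \ R)}.Nonempty := by
    refine ⟨S.card, S, Finset.Subset.refl _, rfl, ?_⟩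
    intro p hp
    simp at hp
  obtain ⟨R, hR, hc, hconv⟩ := Nat.sInf_mem hne
  exact ⟨R, hR, by rw [hc]; exact h, hconv⟩

theorem exists_cover {n k : ℕ} (hn : 1 ≤ n) (A : Finset (Fin n)) (hA : A.card ≤ k) :
    ∃ q : Fin k → Fin n, ∀ i ∈ A, ∃ t, q t = i := by
  refine ⟨fun t => if h : (t : ℕ) < A.card then (A.equivFin.symm ⟨t, h⟩ : Fin n) else ⟨0, hn⟩, ?_⟩
  intro i hi
  have hlt : (A.equivFin ⟨i, hi⟩ : ℕ) < A.card := (A.equivFin ⟨i, hi⟩).2
  refine ⟨⟨A.equivFin ⟨i, hi⟩, lt_of_lt_of_le hlt hA⟩, ?_⟩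
  simp

theorem exists_realisation {n k : ℕ} (hn : 1 ≤ n) (S : Finset (ℝ × ℝ)) (hS : S.card = n)
    (h : DTC S < k) : ∃ (lab : Fin n ≃ S) (t : ℝ) (cd : Code k n),
      Real' (XX (fun i => (lab i : ℝ × ℝ)) t) (YY (fun i => (lab i : ℝ × ℝ))) cd := by
  classical
  obtain ⟨R, hR, hRc, hconv⟩ := exists_removal h
  obtain ⟨t, ht⟩ := exists_generic S
  obtain ⟨lab, hlab⟩ := exists_lab S _ ht hS
  obtain ⟨q, hq⟩ := exists_cover hn (univ.filter (fun i => (lab i : ℝ × ℝ) ∈ R))
    (k := k) (by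
      have h1 : (univ.filter (fun i => (lab i : ℝ × ℝ) ∈ R)).card ≤ R.card := by
        apply Finset.card_le_card_of_injOn (fun i => (lab i : ℝ × ℝ))
        · intro i hi
          simpa using hi
        · intro i _ j _ hij
          exact lab.injective (Subtype.ext hij)
      omega)
  have hX : StrictMono (XX (fun i => (lab i : ℝ × ℝ)) t) := hlab
  obtain ⟨cd, hcd⟩ := exists_code hX q (chains_of_hull hX (by
    intro j hj hmem
    have hjR : (lab j : ℝ × ℝ) ∉ R := by
      intro hjR
      obtain ⟨t', ht'⟩ := hq j (by simp [hjR])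
      exact hj t' ht'
    refine hconv (lab j) (Finset.mem_sdiff.2 ⟨(lab j).2, hjR⟩) ?_
    refine convexHull_mono ?_ hmem
    rintro _ ⟨i, ⟨hi, hij⟩, rfl⟩
    have hiR : (lab i : ℝ × ℝ) ∉ R := by
      intro hiR
      obtain ⟨t', ht'⟩ := hq i (by simp [hiR])
      exact hi t' ht'
    refine ⟨?_, ?_⟩
    · exact_mod_cast Finset.mem_sdiff.2 ⟨(lab i).2, hiR⟩
    · intro he
      exact hij (lab.injective (Subtype.ext he))))
  exact ⟨lab, t, cd, hcd⟩

theorem orient_eq_o3 {n : ℕ} (p : Fin n → ℝ × ℝ) (t : ℝ) (i j l : Fin n) :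
    orient (p i) (p j) (p l) = o3 (XX p t) (YY p) i j l := by
  rw [orient, o3, D_XX, det3]

/-- the set of order types being counted -/
theorem ncard_le {n k : ℕ} (hn : 1 ≤ n) :
    ((Quotient.mk (orderSetoid n)) '' {S | DTC S.1 < k}).Finite ∧
    c k n ≤ 2 ^ (n * (2 + 102 * k + 2 * k ^ 2)) := by
  classical
  set A : Set (Quotient (orderSetoid n)) := (Quotient.mk (orderSetoid n)) '' {S | DTC S.1 < k}
  have hrep : ∀ x : A, ∃ S : {S : Finset (ℝ × ℝ) // S.card = n}, DTC S.1 < k ∧
      Quotient.mk (orderSetoid n) S = x.1 := by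
    rintro ⟨x, S, hS, rfl⟩
    exact ⟨S, hS, rfl⟩
  choose rep hrep1 hrep2 using hrep
  choose lab t cd hcd using fun x : A => exists_realisation hn (rep x).1 (rep x).2 (hrep1 x)
  have hinj : Function.Injective cd := by
    intro x y hxy
    have hx := hcd x
    have hy := hcd y
    rw [← hxy] at hy
    have hu := unique hx hy
    apply Subtype.ext
    rw [← hrep2 x, ← hrep2 y]
    apply Quotient.sound
    refine ⟨(lab x).symm.trans (lab y), ?_⟩
    intro p q r
    have e1 := orient_eq_o3 (fun i => (lab x i : ℝ × ℝ)) (t x) ((lab x).symm p) ((lab x).symm q)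
      ((lab x).symm r)
    have e2 := orient_eq_o3 (fun i => (lab y i : ℝ × ℝ)) (t y) ((lab x).symm p) ((lab x).symm q)
      ((lab x).symm r)
    simp only [Equiv.apply_symm_apply] at e1
    rw [e1, hu, ← e2]
    rfl
  have hfin : Finite A := Finite.of_injective cd hinj
  refine ⟨Set.toFinite A, ?_⟩
  have h1 : Nat.card A ≤ Nat.card (Code k n) := Nat.card_le_card_of_injective cd hinj
  rw [Nat.card_eq_fintype_card (α := Code k n)] at h1
  exact (h1.trans (card_Code k hn))

/-! ### Lower bound for the count -/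

theorem lower {m k : ℕ} (hk : 2 ≤ k) : 2 ^ m ≤ (m + 2) ^ 2 * c k (m + 2) := by
  classical
  set n := m + 2 with hn
  let B : Finset (Fin (m + 1) → Bool) := univ.filter (fun b => b 0 = false)
  let F : (Fin (m + 1) → Bool) → Quotient (orderSetoid n) :=
    fun b => Quotient.mk (orderSetoid n) ⟨wheel (m + 1) b, wheel_card b⟩
  have hB : B.card = 2 ^ m := by
    have e : B.card = (univ : Finset (Fin m → Bool)).card := by
      apply Finset.card_bij' (fun (b : Fin (m + 1) → Bool) _ => Fin.tail b)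
        (fun (b : Fin m → Bool) _ => (Fin.cons false b : Fin (m + 1) → Bool))
      · intro b _; exact Finset.mem_univ _
      · intro b _; simp [B]
      · intro b hb
        simp only [B, Finset.mem_filter, Finset.mem_univ, true_and] at hb
        rw [← hb]
        exact Fin.cons_self_tail b
      · intro b _; simp
    rw [e, Finset.card_univ, Fintype.card_fun, Fintype.card_bool, Fintype.card_fin]
  have hfib : ∀ x ∈ B.image F, (B.filter (fun b => F b = x)).card ≤ n ^ 2 := by
    intro x hx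
    obtain ⟨b0, -, rfl⟩ := Finset.mem_image.1 hx
    have hq : ∀ b : {b // b ∈ B.filter (fun b => F b = F b0)},
        SameOrderType (wheel (m + 1) b.1) (wheel (m + 1) b0) := by
      intro b
      have := (Finset.mem_filter.1 b.2).2
      exact Quotient.exact this
    choose φ hφ using hq
    have h0 : ∀ b : Fin (m + 1) → Bool, ((0 : ℝ), (0 : ℝ)) ∈ wheel (m + 1) b :=
      fun b => mem_wheel.2 (Or.inl rfl)
    have hv : ∀ b : Fin (m + 1) → Bool, vpt (b 0) 0 ∈ wheel (m + 1) b :=
      fun b => mem_wheel.2 (Or.inr ⟨0, rfl⟩)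
    let G : {b // b ∈ B.filter (fun b => F b = F b0)} →
        (wheel (m + 1) b0) × (wheel (m + 1) b0) :=
      fun b => (φ b ⟨_, h0 b.1⟩, φ b ⟨_, hv b.1⟩)
    have hG : Function.Injective G := by
      intro b b' hbb
      have hb0 : b.1 0 = false :=
        (Finset.mem_filter.1 (Finset.mem_filter.1 b.2).1).2
      have hb0' : b'.1 0 = false :=
        (Finset.mem_filter.1 (Finset.mem_filter.1 b'.2).1).2
      have e1 : φ b ⟨_, h0 b.1⟩ = φ b' ⟨_, h0 b'.1⟩ := (Prod.mk.inj hbb).1
      have e2 : φ b ⟨_, hv b.1⟩ = φ b' ⟨_, hv b'.1⟩ := (Prod.mk.inj hbb).2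
      apply Subtype.ext
      refine rigid hb0 hb0' ((φ b).trans (φ b').symm) ?_ ⟨_, h0 b.1⟩ rfl ?_ ⟨_, hv b.1⟩ rfl ?_
      · intro p q r
        rw [hφ b p q r]
        have := hφ b' ((φ b').symm (φ b p)) ((φ b').symm (φ b q)) ((φ b').symm (φ b r))
        simp only [Equiv.apply_symm_apply] at this
        rw [← this]
        rfl
      · rw [Equiv.trans_apply, e1, Equiv.symm_apply_apply]
      · rw [Equiv.trans_apply, e2, Equiv.symm_apply_apply]
    have h1 := Fintype.card_le_of_injective G hG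
    rw [Fintype.card_coe, Fintype.card_prod, Fintype.card_coe, wheel_card] at h1
    calc _ ≤ (m + 1 + 1) * (m + 1 + 1) := h1
      _ = n ^ 2 := by rw [hn]; ring
  have h2 := Finset.card_le_mul_card_image B (n ^ 2) hfib
  rw [hB] at h2
  refine h2.trans (Nat.mul_le_mul_left _ ?_)
  rw [c, ← Set.ncard_coe_finset]
  apply Set.ncard_le_ncard _ (ncard_le (by omega)).1
  intro x hx
  simp only [Finset.coe_image, Set.mem_image] at hx
  obtain ⟨b, -, rfl⟩ := hx
  exact ⟨⟨wheel (m + 1) b, wheel_card b⟩, DTC_wheel_lt hk b, rfl⟩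

/-- For every `k ≥ 2`, `log c_k(n) = Θ(n)` as `n → ∞`. -/
theorem result (k : ℕ) (hk : 2 ≤ k) :
    (fun n : ℕ => Real.log (c k n)) =Θ[Filter.atTop] (fun n : ℕ => (n : ℝ)) := by
  constructor
  · -- upper bound
    rw [Asymptotics.isBigO_iff]
    refine ⟨((2 + 102 * k + 2 * k ^ 2 : ℕ) : ℝ) * Real.log 2, ?_⟩
    filter_upwards [Filter.eventually_ge_atTop 1] with n hn
    have hc := (ncard_le (k := k) hn).2
    rcases Nat.eq_zero_or_pos (c k n) with h0 | hpos
    · rw [h0]; simp; positivity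
    · have h1 : (1 : ℝ) ≤ (c k n : ℝ) := by exact_mod_cast hpos
      have hl0 : 0 ≤ Real.log (c k n) := Real.log_nonneg h1
      rw [Real.norm_of_nonneg hl0, Real.norm_of_nonneg (Nat.cast_nonneg n)]
      have h2 : (c k n : ℝ) ≤ 2 ^ (n * (2 + 102 * k + 2 * k ^ 2)) := by exact_mod_cast hc
      have h3 := Real.log_le_log (by linarith) h2
      rw [Real.log_pow] at h3
      refine h3.trans (le_of_eq ?_)
      push_cast
      ring
  · -- lower bound
    rw [Asymptotics.isBigO_iff]
    refine ⟨8, ?_⟩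
    filter_upwards [Filter.eventually_ge_atTop 100] with n hn
    obtain ⟨m, rfl⟩ : ∃ m, n = m + 2 := ⟨n - 2, by omega⟩
    have hlow := lower (m := m) hk
    have hcpos : 0 < c k (m + 2) := by
      rcases Nat.eq_zero_or_pos (c k (m + 2)) with h0 | h0
      · rw [h0, mul_zero] at hlow
        have : 0 < 2 ^ m := by positivity
        omega
      · exact h0
    have h1 : (1 : ℝ) ≤ (c k (m + 2) : ℝ) := by exact_mod_cast hcpos
    have hl0 : 0 ≤ Real.log (c k (m + 2)) := Real.log_nonneg h1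
    rw [Real.norm_of_nonneg hl0, Real.norm_of_nonneg (Nat.cast_nonneg _)]
    have h2 : ((2 : ℝ) ^ m) ≤ ((m + 2 : ℕ) : ℝ) ^ 2 * (c k (m + 2) : ℝ) := by exact_mod_cast hlow
    have hn0 : (0 : ℝ) < ((m + 2 : ℕ) : ℝ) := by positivity
    have h3 := Real.log_le_log (by positivity) h2
    rw [Real.log_pow, Real.log_mul (by positivity) (by positivity), Real.log_pow] at h3
    -- log x ≤ sqrt-type bound: log n ≤ n / 8 for n ≥ 100 via log (n/32) ≤ n/32 - 1
    have h4 : Real.log (((m + 2 : ℕ) : ℝ)) ≤ ((m + 2 : ℕ) : ℝ) / 32 - 1 + Real.log 32 := by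
      have h5 := Real.log_le_sub_one_of_pos (show 0 < ((m + 2 : ℕ) : ℝ) / 32 by positivity)
      rw [Real.log_div (by positivity) (by norm_num)] at h5
      linarith
    have h6 : Real.log 32 = 5 * Real.log 2 := by
      rw [show (32 : ℝ) = 2 ^ 5 by norm_num, Real.log_pow]; norm_num
    have h7 : Real.log 2 < 0.6931471808 := Real.log_two_lt_d9
    have h8 : 0.6931471803 < Real.log 2 := Real.log_two_gt_d9
    have hm : (98 : ℝ) ≤ (m : ℝ) := by exact_mod_cast (by omega : 98 ≤ m)
    push_cast at h3 h4 ⊢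
    nlinarith [mul_le_mul_of_nonneg_left h8.le (by linarith : (0 : ℝ) ≤ (m : ℝ))]

end Pool.Agent.Results.MP_6a769b_co.ThetaLinear
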